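import Pool.Agent.Helper15.EIso.Final

/-!
Equi-isoclinic 3-planes in complex spaces: `v(3, 3 r, ℂ) ≤ r (3 r - 2)` for every `r ≥ 1`.
-/

namespace Pool.Agent.Results.MP_edb114_gt.UpperBound

/-- `W` is a family of `n`-dimensional subspaces of `ℂ^m` which is equi-isoclinic: there is a
constant `0 < lam < 1` with `P_i P_j P_i = lam P_i` for all `i ≠ j`, where `P_i` is the orthogonal
projection onto `W i`. -/
def EquiIsoclinic {m v : ℕ} (n : ℕ) (W : Fin v → Submodule ℂ (EuclideanSpace ℂ (Fin m))) : Prop :=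
  (∀ i, Module.finrank ℂ (W i) = n) ∧ ∃ lam : ℝ, 0 < lam ∧ lam < 1 ∧ ∀ i j, i ≠ j →
    (W i).starProjection ∘L (W j).starProjection ∘L (W i).starProjection
      = (lam : ℂ) • (W i).starProjection

/-- For every `r ≥ 1`, a family of `v` equi-isoclinic 3-planes in `ℂ^(3 r)` has
`v ≤ r (3 r - 2)`. -/
theorem result (r : ℕ) (hr : 1 ≤ r) (v : ℕ)
    (W : Fin v → Submodule ℂ (EuclideanSpace ℂ (Fin (3 * r)))) (h : EquiIsoclinic 3 W) :
    v ≤ r * (3 * r - 2) :=
  Helper15.EIso.bound r hr v W h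

end Pool.Agent.Results.MP_edb114_gt.UpperBound
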