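import Pool.Agent.Helper15.EIso.FinalH

/-!
Equi-isoclinic 3-planes in quaternionic spaces: `v(3, 3 r, ℍ) ≤ r (6 r - 5)` for every `r ≥ 1`.
-/

namespace Pool.Agent.Results.MP_edb114_gt.UpperBoundQuaternionic

open Matrix Quaternion

/-- `P` is (the matrix of) the orthogonal projection of the right `ℍ`-space `ℍ^m` onto `W`: it is
Hermitian, its image is contained in `W`, and it fixes `W` pointwise. -/
def IsOrthProj {m : ℕ} (P : Matrix (Fin m) (Fin m) ℍ[ℝ])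
    (W : Submodule ℍ[ℝ]ᵐᵒᵖ (Fin m → ℍ[ℝ])) : Prop :=
  Pᴴ = P ∧ (∀ x, P *ᵥ x ∈ W) ∧ ∀ x ∈ W, P *ᵥ x = x

/-- `W` is a family of right `ℍ`-subspaces of `ℍ^m`, of dimension `n`, which is equi-isoclinic:
there is a constant `0 < lam < 1` with `P_i P_j P_i = lam P_i` for all `i ≠ j`, where `P_i` is the
orthogonal projection onto `W i`. -/
def EquiIsoclinic {m v : ℕ} (n : ℕ) (W : Fin v → Submodule ℍ[ℝ]ᵐᵒᵖ (Fin m → ℍ[ℝ])) : Prop :=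
  (∀ i, Module.finrank ℍ[ℝ]ᵐᵒᵖ (W i) = n) ∧
    ∃ P : Fin v → Matrix (Fin m) (Fin m) ℍ[ℝ], (∀ i, IsOrthProj (P i) (W i)) ∧
      ∃ lam : ℝ, 0 < lam ∧ lam < 1 ∧ ∀ i j, i ≠ j → P i * P j * P i = lam • P i

/-- For every `r ≥ 1`, a family of `v` equi-isoclinic 3-planes in `ℍ^(3 r)` has
`v ≤ r (6 r - 5)`. -/
theorem result (r : ℕ) (hr : 1 ≤ r) (v : ℕ)
    (W : Fin v → Submodule ℍ[ℝ]ᵐᵒᵖ (Fin (3 * r) → ℍ[ℝ])) (h : EquiIsoclinic 3 W) :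
    v ≤ r * (6 * r - 5) :=
  Helper15.EIso.boundH r hr v W h

end Pool.Agent.Results.MP_edb114_gt.UpperBoundQuaternionic
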